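import Mathlib

/-!
Disproof of the fourth-moment conjecture for spectra of (balanced) distance graphs of binary codes.

For every `0 < δ < 1/2` and all large `n` we exhibit a code `C` of minimal distance `d = ⌊δ n⌋`
(the zero word together with an exponentially large family of words of weight `d` at pairwise
distances `> d`) whose distance-`d` graph is a star.  A star is `1`-balanced, while
`‖λ‖₄ / ‖λ‖₂ = (|C| / 2) ^ (1/4)` is exponentially large.
-/

set_option autoImplicit false

namespace Pool.Agent.Results.MP_5eddec_co.StarDisproof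

open Finset Matrix Asymptotics Filter

/-! ### Definitions -/

/-- A binary code of length `n` with minimal distance `d`: any two distinct elements are at
Hamming distance at least `d`. -/
def IsCode {n : ℕ} (C : Finset (Fin n → Bool)) (d : ℕ) : Prop :=
  ∀ x ∈ C, ∀ y ∈ C, x ≠ y → d ≤ hammingDist x y

/-- The distance-`i` graph `G(C,i)` on the vertex set `C`: distinct `x`, `y` are adjacent iff their
Hamming distance is `i`. -/
def distGraph {n : ℕ} (C : Finset (Fin n → Bool)) (i : ℕ) : SimpleGraph C where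
  Adj x y := x ≠ y ∧ hammingDist x.1 y.1 = i
  symm := ⟨fun x y h => ⟨h.1.symm, by rw [hammingDist_comm]; exact h.2⟩⟩
  loopless := ⟨fun x h => h.1 rfl⟩

/-- The set `E(X,X)` of edges of `G` with both endpoints in `X`. -/
def edgesIn {V : Type*} (G : SimpleGraph V) (X : Finset V) : Set (Sym2 V) :=
  {e ∈ G.edgeSet | ∀ v ∈ e, v ∈ X}

/-- `G` is `t`-balanced: it has an edge, and `|E(X,X)| / |X| ≤ t |E| / |V|` for all nonempty `X`. -/
def IsBalanced {V : Type*} [Fintype V] (G : SimpleGraph V) (t : ℝ) : Prop :=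
  G.edgeSet.Nonempty ∧ ∀ X : Finset V, X.Nonempty →
    ((edgesIn G X).ncard : ℝ) / X.card ≤ t * ((G.edgeSet.ncard : ℝ) / Fintype.card V)

open Classical in
/-- The eigenvalues (with multiplicity) of the adjacency matrix of `G`. -/
noncomputable def eigs {V : Type*} [Fintype V] (G : SimpleGraph V) : V → ℝ :=
  (G.isHermitian_adjMatrix ℝ).eigenvalues

/-- `‖f‖_p` for the uniform probability measure on `V`. -/
noncomputable def uNorm {V : Type*} [Fintype V] (p : ℝ) (f : V → ℝ) : ℝ :=
  ((∑ v, |f v| ^ p) / Fintype.card V) ^ (1 / p)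

/-- The constant `c*(δ)` of the question. -/
noncomputable def cstar (δ : ℝ) : ℝ :=
  δ * (1 - 2 * δ) * Real.logb 2 ((1 / 2 + √(δ * (1 - δ))) / (1 / 2 - √(δ * (1 - δ)))) /
    (16 * √(δ * (1 - δ)))

/-- The assertion of the question with the function `c` in place of `c*`
(so Q1 is `Conj cstar`). -/
def Conj (c : ℝ → ℝ) : Prop :=
  ∀ δ : ℝ, 0 < δ → δ < 1 / 2 → ∃ ε₀ : ℝ, 0 < ε₀ ∧ ∀ ε : ℝ, 0 ≤ ε → ε ≤ ε₀ →
    ∀ t : ℕ → ℝ, (∀ n, 1 ≤ t n) →
      (fun n => Real.logb 2 (t n)) =o[atTop] (fun n => (n : ℝ)) →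
      ∃ g : ℕ → ℝ, g =o[atTop] (fun n => (n : ℝ)) ∧
        ∀ (n : ℕ) (C : Finset (Fin n → Bool)) (i : ℕ), IsCode C ⌊δ * n⌋₊ →
          ⌊δ * n⌋₊ ≤ i → (i : ℝ) ≤ (1 + ε) * ⌊δ * n⌋₊ → IsBalanced (distGraph C i) (t n) →
            uNorm 4 (eigs (distGraph C i)) / uNorm 2 (eigs (distGraph C i))
              ≤ (2 : ℝ) ^ (c δ * ε * n + g n)

/-! ### A large constant weight code -/

/-- mode of the binomial distribution -/
lemma mode_aux (n d : ℕ) (hd : d ≤ n) (k : ℕ) (hk : k ≤ n) :
    n.choose k * d ^ k * (n - d) ^ (n - k) ≤ n.choose d * d ^ d * (n - d) ^ (n - d) := by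
  rcases Nat.eq_zero_or_pos d with rfl | hdpos
  · rcases Nat.eq_zero_or_pos k with rfl | hk0
    · simp
    · simp [hk0.ne']
  rcases Nat.lt_or_ge d n with hdn | hdn
  swap
  · have : d = n := le_antisymm hd hdn
    subst this
    rcases Nat.lt_or_ge k d with h | h
    · have : d - k ≠ 0 := by omega
      simp [this]
    · have : k = d := le_antisymm hk h
      subst this; simp
  have key : ∀ j, j < n → n.choose (j+1) * (j+1) = n.choose j * (n - j) :=
    fun j _ => Nat.choose_succ_right_eq n j
  have rel : ∀ j, j < n → (n.choose j * d ^ j * (n - d) ^ (n - j)) * ((n - j) * d)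
      = (n.choose (j+1) * d ^ (j+1) * (n - d) ^ (n - (j+1))) * ((j+1) * (n - d)) := by
    intro j hj
    have h1 : n - j = (n - (j+1)) + 1 := by omega
    have h2 := key j hj
    calc (n.choose j * d ^ j * (n - d) ^ (n - j)) * ((n - j) * d)
        = (n.choose j * (n - j)) * (d ^ (j+1)) * (n - d) ^ (n - j) := by ring
      _ = (n.choose (j+1) * (j+1)) * (d ^ (j+1)) * (n - d) ^ (n - j) := by rw [h2]
      _ = (n.choose (j+1) * (j+1)) * (d ^ (j+1)) * ((n - d) ^ (n - (j+1)) * (n - d)) := by
            rw [← pow_succ (n - d), ← h1]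
      _ = _ := by ring
  have up : ∀ j, j < d → (n.choose j * d ^ j * (n - d) ^ (n - j)) ≤
      (n.choose (j+1) * d ^ (j+1) * (n - d) ^ (n - (j+1))) := by
    intro j hj
    have hjn : j < n := by omega
    have h := rel j hjn
    have hle : (j+1) * (n-d) ≤ (n - j) * d := by
      have : (j+1) * (n-d) ≤ d * (n - d) := Nat.mul_le_mul_right _ (by omega)
      have h3 : d * (n-d) ≤ d * (n-j) := Nat.mul_le_mul_left _ (by omega)
      calc (j+1) * (n-d) ≤ d * (n-d) := this
        _ ≤ d * (n-j) := h3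
        _ = (n-j) * d := by ring
    have hpos : 0 < (n - j) * d := Nat.mul_pos (by omega) hdpos
    refine Nat.le_of_mul_le_mul_right ?_ hpos
    rw [h]
    exact Nat.mul_le_mul_left _ hle
  have down : ∀ j, d ≤ j → j < n → (n.choose (j+1) * d ^ (j+1) * (n - d) ^ (n - (j+1))) ≤
      (n.choose j * d ^ j * (n - d) ^ (n - j)) := by
    intro j hj hjn
    have h := rel j hjn
    have hle : (n - j) * d ≤ (j+1) * (n-d) := by
      calc (n-j) * d ≤ (n-d) * (j+1) := Nat.mul_le_mul (by omega) (by omega)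
        _ = (j+1) * (n-d) := by ring
    have hpos : 0 < (j+1) * (n-d) := Nat.mul_pos (by omega) (by omega)
    refine Nat.le_of_mul_le_mul_right ?_ hpos
    rw [← h]
    exact Nat.mul_le_mul_left _ hle
  rcases le_total k d with h | h
  · have : ∀ m, m ≤ d → (n.choose (d - m) * d ^ (d-m) * (n - d) ^ (n - (d-m)))
        ≤ n.choose d * d ^ d * (n - d) ^ (n - d) := by
      intro m
      induction m with
      | zero => intro _; simp
      | succ m ih =>
        intro hm
        have h1 := up (d - (m+1)) (by omega)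
        have h2 : d - (m+1) + 1 = d - m := by omega
        rw [h2] at h1
        exact h1.trans (ih (by omega))
    have h3 := this (d - k) (by omega)
    have h4 : d - (d - k) = k := by omega
    rwa [h4] at h3
  · have : ∀ m, d + m ≤ n → (n.choose (d + m) * d ^ (d+m) * (n - d) ^ (n - (d+m)))
        ≤ n.choose d * d ^ d * (n - d) ^ (n - d) := by
      intro m
      induction m with
      | zero => intro _; simp
      | succ m ih =>
        intro hm
        have h1 := down (d + m) (by omega) (by omega)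
        exact h1.trans (ih (by omega))
    have h3 := this (k - d) (by omega)
    have h4 : d + (k - d) = k := by omega
    rwa [h4] at h3

lemma pow_le_choose (n d : ℕ) (hd : d ≤ n) :
    n ^ n ≤ (n + 1) * (n.choose d * d ^ d * (n - d) ^ (n - d)) := by
  have h1 : n ^ n = ∑ m ∈ range (n + 1), d ^ m * (n - d) ^ (n - m) * n.choose m := by
    have := add_pow d (n - d) n
    rw [Nat.add_sub_cancel' hd] at this
    simpa using this
  rw [h1]
  calc _ ≤ ∑ m ∈ range (n + 1), (n.choose d * d ^ d * (n - d) ^ (n - d)) := by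
        refine sum_le_sum fun m hm => ?_
        have hm' : m ≤ n := by simpa [Nat.lt_succ_iff] using hm
        have := mode_aux n d hd m hm'
        calc _ = n.choose m * d ^ m * (n - d) ^ (n - m) := by ring
          _ ≤ _ := this
    _ = _ := by simp

/-- number of words of weight `d` -/
lemma card_weight (n d : ℕ) :
    (univ.filter (fun x : Fin n → Bool => hammingDist x (fun _ => false) = d)).card
      = n.choose d := by
  have h : ∀ x : Fin n → Bool, hammingDist x (fun _ => false)
      = (univ.filter (fun j => x j = true)).card := by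
    intro x
    simp [hammingDist]
  have : (powersetCard d (univ : Finset (Fin n))).card = n.choose d := by simp
  rw [← this]
  refine card_bij' (fun x _ => univ.filter (fun j => x j = true))
    (fun s _ => fun j => decide (j ∈ s)) ?_ ?_ ?_ ?_
  · intro x hx
    simp only [mem_filter, mem_univ, true_and] at hx
    simp [mem_powersetCard, ← hx, h]
  · intro s hs
    simp only [mem_powersetCard] at hs
    simp [h, hs.2]
  · intro x hx
    funext j
    simp
  · intro s hs
    ext j
    simp

/-- generating function bound for balls -/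
lemma ball_bound (n d : ℕ) (hd : d ≤ n) (x : Fin n → Bool)
    (hx : hammingDist x (fun _ => false) = d) (s z : ℝ) (hs : 1 ≤ s) (hz : 0 ≤ z) :
    ((univ.filter (fun y : Fin n → Bool =>
        hammingDist y (fun _ => false) = d ∧ hammingDist x y ≤ d)).card : ℝ)
      * (s ^ (n - d) * z ^ d) ≤ (s * z + 1) ^ d * (s + z) ^ (n - d) := by
  classical
  set φ : Bool → Bool → ℝ :=
    fun a b => (if a = b then s else 1) * (if b = true then z else 1) with hφ
  have hnonneg : ∀ a b, 0 ≤ φ a b := by
    intro a b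
    simp only [hφ]
    have : (0:ℝ) ≤ s := by linarith
    split_ifs <;> positivity
  have hsum : ∑ y : Fin n → Bool, ∏ j, φ (x j) (y j)
      = (s * z + 1) ^ d * (s + z) ^ (n - d) := by
    have h1 : ∑ y : Fin n → Bool, ∏ j, φ (x j) (y j) = ∏ j, ∑ b : Bool, φ (x j) b := by
      rw [Finset.prod_univ_sum, Fintype.piFinset_univ]
    rw [h1]
    have h2 : ∀ j, ∑ b : Bool, φ (x j) b = if x j = true then s * z + 1 else s + z := by
      intro j
      cases hxj : x j <;> simp [hφ]
      ring
    simp_rw [h2]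
    rw [Finset.prod_ite]
    simp only [prod_const]
    have h3 : (univ.filter (fun j => x j = true)).card = d := by
      rw [← hx]; simp [hammingDist]
    have h4 : (univ.filter (fun j => ¬ x j = true)).card = n - d := by
      have := Finset.card_filter_add_card_filter_not (s := (univ : Finset (Fin n)))
        (fun j => x j = true)
      simp only [card_univ, Fintype.card_fin] at this
      omega
    rw [h3, h4]
  rw [← hsum]
  have hlow : ∀ y ∈ univ.filter (fun y : Fin n → Bool =>
        hammingDist y (fun _ => false) = d ∧ hammingDist x y ≤ d),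
      s ^ (n - d) * z ^ d ≤ ∏ j, φ (x j) (y j) := by
    intro y hy
    simp only [mem_filter, mem_univ, true_and] at hy
    obtain ⟨hy1, hy2⟩ := hy
    simp only [hφ]
    rw [Finset.prod_mul_distrib, Finset.prod_ite, Finset.prod_ite]
    simp only [prod_const, one_pow, mul_one]
    have h3 : (univ.filter (fun j => y j = true)).card = d := by
      rw [← hy1]; simp [hammingDist]
    rw [h3]
    have h4 : n - d ≤ (univ.filter (fun j => x j = y j)).card := by
      have := Finset.card_filter_add_card_filter_not (s := (univ : Finset (Fin n)))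
        (fun j => x j = y j)
      simp only [card_univ, Fintype.card_fin] at this
      have h5 : (univ.filter (fun j => ¬ x j = y j)).card = hammingDist x y := by
        simp [hammingDist]
      omega
    exact mul_le_mul_of_nonneg_right (pow_le_pow_right₀ hs h4) (by positivity)
  calc _ = ∑ y ∈ univ.filter (fun y : Fin n → Bool =>
            hammingDist y (fun _ => false) = d ∧ hammingDist x y ≤ d),
        (s ^ (n - d) * z ^ d) := by rw [sum_const, nsmul_eq_mul]
    _ ≤ ∑ y ∈ univ.filter (fun y : Fin n → Bool =>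
            hammingDist y (fun _ => false) = d ∧ hammingDist x y ≤ d),
        ∏ j, φ (x j) (y j) := sum_le_sum hlow
    _ ≤ _ := by
        refine sum_le_sum_of_subset_of_nonneg (filter_subset _ _) ?_
        intro y _ _
        exact prod_nonneg fun j _ => hnonneg _ _

/-- greedy code -/
lemma exists_code (n d : ℕ) (M : ℝ)
    (hM : ∀ x : Fin n → Bool, hammingDist x (fun _ => false) = d →
      ((univ.filter (fun y : Fin n → Bool =>
        hammingDist y (fun _ => false) = d ∧ hammingDist x y ≤ d)).card : ℝ) ≤ M) :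
    ∃ L : Finset (Fin n → Bool), (∀ x ∈ L, hammingDist x (fun _ => false) = d) ∧
      (∀ x ∈ L, ∀ y ∈ L, x ≠ y → d < hammingDist x y) ∧ (n.choose d : ℝ) ≤ L.card * M := by
  classical
  set S := univ.filter (fun x : Fin n → Bool => hammingDist x (fun _ => false) = d) with hS
  set P := S.powerset.filter (fun L => ∀ x ∈ L, ∀ y ∈ L, x ≠ y → d < hammingDist x y) with hP
  have hPne : P.Nonempty := ⟨∅, by simp [hP]⟩
  obtain ⟨L, hLP, hmax⟩ := exists_max_image P card hPne
  simp only [hP, mem_filter, mem_powerset] at hLP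
  obtain ⟨hLS, hL⟩ := hLP
  refine ⟨L, fun x hx => by simpa [hS] using hLS hx, hL, ?_⟩
  have hcover : S ⊆ L.biUnion (fun x => univ.filter (fun y : Fin n → Bool =>
      hammingDist y (fun _ => false) = d ∧ hammingDist x y ≤ d)) := by
    intro y hy
    by_contra hcon
    simp only [mem_biUnion, mem_filter, mem_univ, true_and, not_exists, not_and, not_le] at hcon
    have hyd : hammingDist y (fun _ => false) = d := by simpa [hS] using hy
    have hcon' : ∀ x ∈ L, d < hammingDist x y := fun x hx => hcon x hx hyd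
    have hyL : y ∉ L := by
      intro hyL
      have := hcon' y hyL
      simp at this
    have hin : insert y L ∈ P := by
      simp only [hP, mem_filter, mem_powerset]
      refine ⟨insert_subset hy hLS, ?_⟩
      intro a ha b hb hab
      rw [mem_insert] at ha hb
      rcases ha with rfl | ha
      · rcases hb with rfl | hb
        · exact absurd rfl hab
        · rw [hammingDist_comm]; exact hcon' b hb
      · rcases hb with rfl | hb
        · exact hcon' a ha
        · exact hL a ha b hb hab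
    have := hmax _ hin
    rw [card_insert_of_notMem hyL] at this
    omega
  have h1 : (n.choose d : ℝ) = S.card := by rw [← card_weight n d]
  rw [h1]
  calc (S.card : ℝ) ≤ ((L.biUnion (fun x => univ.filter (fun y : Fin n → Bool =>
          hammingDist y (fun _ => false) = d ∧ hammingDist x y ≤ d))).card : ℝ) := by
        exact_mod_cast card_le_card hcover
    _ ≤ ∑ x ∈ L, ((univ.filter (fun y : Fin n → Bool =>
          hammingDist y (fun _ => false) = d ∧ hammingDist x y ≤ d)).card : ℝ) := by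
        exact_mod_cast card_biUnion_le
    _ ≤ ∑ x ∈ L, M := sum_le_sum fun x hx => hM x (by simpa [hS] using hLS hx)
    _ = L.card * M := by simp

/-- Gilbert type bound for constant weight codes. -/
lemma gilbert (n d : ℕ) (hd0 : 0 < d) (hdn : d < n) (s : ℝ) (hs : 1 ≤ s) :
    ∃ L : Finset (Fin n → Bool), (∀ x ∈ L, hammingDist x (fun _ => false) = d) ∧
      (∀ x ∈ L, ∀ y ∈ L, x ≠ y → d < hammingDist x y) ∧
      (s * n) ^ d ≤ (n + 1) * L.card * (s ^ 2 * d + (n - d)) ^ d := by
  have hspos : (0:ℝ) < s := by linarith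
  have hdR : (0:ℝ) < d := by exact_mod_cast hd0
  have hndR : (0:ℝ) < (n:ℝ) - d := by
    have : (d:ℝ) < n := by exact_mod_cast hdn
    linarith
  have hnR : (0:ℝ) < (n:ℝ) := by linarith
  set z : ℝ := s * d / (n - d) with hz
  have hzpos : 0 < z := by positivity
  set M : ℝ := (s * z + 1) ^ d * (s + z) ^ (n - d) / (s ^ (n - d) * z ^ d) with hMdef
  obtain ⟨L, hL1, hL2, hL3⟩ := exists_code n d M (by
    intro x hx
    have := ball_bound n d hdn.le x hx s z hs hzpos.le
    rw [hMdef, le_div_iff₀ (by positivity)]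
    exact this)
  refine ⟨L, hL1, hL2, ?_⟩
  have h1 : ((n:ℝ)) ^ n ≤ (n + 1) * (n.choose d * d ^ d * ((n:ℝ) - d) ^ (n - d)) := by
    have := pow_le_choose n d hdn.le
    have h2 : ((n ^ n : ℕ) : ℝ) ≤ (((n + 1) * (n.choose d * d ^ d * (n - d) ^ (n - d)) : ℕ) : ℝ) := by
      exact_mod_cast this
    push_cast [Nat.cast_sub hdn.le] at h2
    exact h2
  -- evaluate M
  have hM : M * (s ^ d * d ^ d * ((n:ℝ) - d) ^ (n - d))
      = (s ^ 2 * d + (n - d)) ^ d * n ^ (n - d) := by
    have e1 : s * z + 1 = (s ^ 2 * d + (n - d)) / (n - d) := by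
      rw [hz]; field_simp
    have e2 : s + z = s * n / (n - d) := by
      rw [hz]; field_simp; ring
    rw [hMdef, e1, e2, hz]
    rw [div_pow, div_pow, div_pow, mul_pow, mul_pow]
    field_simp
  have hsplit : (n:ℝ) ^ n = n ^ d * n ^ (n - d) := by
    rw [← pow_add, Nat.add_sub_cancel' hdn.le]
  have hnpow : (0:ℝ) < (n:ℝ) ^ (n - d) := by positivity
  have hfin : (s * n) ^ d * (n:ℝ) ^ (n - d)
      ≤ ((n + 1) * L.card * (s ^ 2 * d + (n - d)) ^ d) * (n:ℝ) ^ (n - d) := by
    calc (s * n) ^ d * (n:ℝ) ^ (n - d) = s ^ d * (n:ℝ) ^ n := by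
          rw [hsplit, mul_pow]; ring
      _ ≤ s ^ d * ((n + 1) * (n.choose d * d ^ d * ((n:ℝ) - d) ^ (n - d))) := by
          exact mul_le_mul_of_nonneg_left h1 (by positivity)
      _ ≤ s ^ d * ((n + 1) * ((L.card * M) * d ^ d * ((n:ℝ) - d) ^ (n - d))) := by
          have hn1 : (0:ℝ) ≤ (n:ℝ) + 1 := by linarith
          have hsd : (0:ℝ) ≤ s ^ d := by positivity
          have hdd : (0:ℝ) ≤ (d:ℝ) ^ d := by positivity
          have hnd : (0:ℝ) ≤ ((n:ℝ) - d) ^ (n - d) := by positivity
          gcongr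
      _ = (n + 1) * L.card * (M * (s ^ d * d ^ d * ((n:ℝ) - d) ^ (n - d))) := by ring
      _ = ((n + 1) * L.card * (s ^ 2 * d + (n - d)) ^ d) * (n:ℝ) ^ (n - d) := by
          rw [hM]; ring
  exact le_of_mul_le_mul_right hfin hnpow

/-! ### Spectra of stars -/

lemma trace_pow_eq {V : Type*} [Fintype V] [DecidableEq V] (A : Matrix V V ℝ)
    (hA : A.IsHermitian) (k : ℕ) :
    (A ^ k).trace = ∑ v, (hA.eigenvalues v) ^ k := by
  conv_lhs => rw [hA.spectral_theorem]
  rw [← map_pow]
  rw [Matrix.diagonal_pow]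
  simp [Unitary.conjStarAlgAut_apply, Matrix.trace_mul_cycle]

section star
variable {V : Type*} [Fintype V] (G : SimpleGraph V) (c : V)
  (hG : ∀ x y, G.Adj x y ↔ ((x = c ∧ y ≠ c) ∨ (x ≠ c ∧ y = c)))

include hG

omit [Fintype V] in
lemma star_edgesIn (X : Finset V) (hX : X.Nonempty) : (edgesIn G X).ncard + 1 ≤ X.card := by
  classical
  by_cases hc : c ∈ X
  · have hsub : edgesIn G X ⊆ (((X.erase c).image (fun y => s(c, y))) : Set (Sym2 V)) := by
      intro e he
      obtain ⟨he1, he2⟩ := he
      induction e using Sym2.inductionOn with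
      | hf x y =>
        rw [SimpleGraph.mem_edgeSet, hG] at he1
        rcases he1 with ⟨rfl, hy⟩ | ⟨hx, rfl⟩
        · simp only [coe_image, Set.mem_image, mem_coe]
          exact ⟨y, mem_erase.2 ⟨hy, he2 y (by simp)⟩, rfl⟩
        · simp only [coe_image, Set.mem_image, mem_coe]
          exact ⟨x, mem_erase.2 ⟨hx, he2 x (by simp)⟩, Sym2.eq_swap⟩
    have h1 : (edgesIn G X).ncard ≤ (X.erase c).card :=
      calc (edgesIn G X).ncard ≤ (((X.erase c).image (fun y => s(c, y))) : Set (Sym2 V)).ncard :=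
            Set.ncard_le_ncard hsub (Finset.finite_toSet _)
        _ = ((X.erase c).image (fun y => s(c, y))).card := Set.ncard_coe_finset _
        _ ≤ (X.erase c).card := card_image_le
    have h2 := card_erase_add_one hc
    omega
  · have h0 : edgesIn G X = ∅ := by
      rw [Set.eq_empty_iff_forall_notMem]
      rintro e ⟨he1, he2⟩
      induction e using Sym2.inductionOn with
      | hf x y =>
        rw [SimpleGraph.mem_edgeSet, hG] at he1
        rcases he1 with ⟨rfl, hy⟩ | ⟨hx, rfl⟩
        · exact hc (he2 x (by simp))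
        · exact hc (he2 y (by simp))
    rw [h0, Set.ncard_empty]
    have := hX.card_pos
    omega

lemma star_edges : Fintype.card V ≤ G.edgeSet.ncard + 1 := by
  classical
  have hsub : (((univ.erase c).image (fun y => s(c, y))) : Set (Sym2 V)) ⊆ G.edgeSet := by
    intro e he
    simp only [coe_image, Set.mem_image, mem_coe, mem_erase] at he
    obtain ⟨y, ⟨hy, -⟩, rfl⟩ := he
    rw [SimpleGraph.mem_edgeSet, hG]
    left; exact ⟨rfl, hy⟩
  have h1 : ((univ.erase c).image (fun y => s(c, y))).card ≤ G.edgeSet.ncard := by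
    rw [← Set.ncard_coe_finset]
    exact Set.ncard_le_ncard hsub (Set.toFinite _)
  rw [card_image_of_injective] at h1
  · rw [card_erase_of_mem (mem_univ c), card_univ] at h1
    omega
  · intro a b hab
    have h : s(c, a) = s(c, b) := hab
    rw [Sym2.eq_iff] at h
    rcases h with ⟨-, h⟩ | ⟨h1, h2⟩
    · exact h
    · rw [h2, h1]

lemma star_balanced (hV : 2 ≤ Fintype.card V) : IsBalanced G 1 := by
  classical
  constructor
  · obtain ⟨y, hy⟩ : ∃ y : V, y ≠ c := by
      by_contra hcon
      push Not at hcon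
      have : Fintype.card V ≤ 1 := Fintype.card_le_one_iff.2 fun a b => by rw [hcon a, hcon b]
      omega
    exact ⟨s(c, y), by rw [SimpleGraph.mem_edgeSet, hG]; left; exact ⟨rfl, hy⟩⟩
  · intro X hX
    have h1 := star_edgesIn G c hG X hX
    have h2 := star_edges G c hG
    have h3 : X.card ≤ Fintype.card V := card_le_univ X
    have hXpos : (0:ℝ) < X.card := by exact_mod_cast hX.card_pos
    have hVpos : (0:ℝ) < Fintype.card V := by exact_mod_cast (by omega : 0 < Fintype.card V)
    rw [one_mul, div_le_div_iff₀ hXpos hVpos]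
    have h1' : ((edgesIn G X).ncard : ℝ) + 1 ≤ X.card := by exact_mod_cast h1
    have h2' : (Fintype.card V : ℝ) ≤ G.edgeSet.ncard + 1 := by exact_mod_cast h2
    have h3' : (X.card : ℝ) ≤ Fintype.card V := by exact_mod_cast h3
    nlinarith

lemma star_sq : ∑ v, (eigs G v) ^ 2 = 2 * ((Fintype.card V : ℝ) - 1) ∧
    ∑ v, (eigs G v) ^ 4 = 2 * ((Fintype.card V : ℝ) - 1) ^ 2 := by
  classical
  set N : ℝ := (Fintype.card V : ℝ) - 1 with hN
  have hsumN : ∑ z : V, (if z = c then (0:ℝ) else 1) = N := by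
    have : ∑ z : V, (if z = c then (0:ℝ) else 1) = ∑ z : V, ((1:ℝ) - if z = c then 1 else 0) := by
      refine sum_congr rfl fun z _ => ?_
      split_ifs <;> simp
    rw [this, sum_sub_distrib]
    simp [hN]
  set A := G.adjMatrix ℝ with hA
  have hAxy : ∀ x y, A x y
      = if x = c then (if y = c then 0 else 1) else (if y = c then 1 else 0) := by
    intro x y
    rw [hA, SimpleGraph.adjMatrix_apply]
    by_cases hx : x = c <;> by_cases hy : y = c <;> simp [hG, hx, hy]
  have hA2 : ∀ x y, (A * A) x y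
      = if x = c then (if y = c then N else 0) else (if y = c then 0 else 1) := by
    intro x y
    rw [Matrix.mul_apply]
    simp_rw [hAxy]
    by_cases hx : x = c <;> by_cases hy : y = c
    · simp only [hx, hy, if_true]
      rw [← hsumN]
      refine sum_congr rfl fun z _ => ?_
      split_ifs <;> simp
    · simp only [hx, hy, if_true, if_false]
      refine sum_eq_zero fun z _ => ?_
      split_ifs <;> simp
    · simp only [hx, hy, if_true, if_false]
      refine sum_eq_zero fun z _ => ?_
      split_ifs <;> simp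
    · simp only [hx, hy, if_false]
      rw [sum_eq_single c]
      · simp
      · intro b _ hb; simp [hb]
      · simp
  have h2 : (A ^ 2).trace = 2 * N := by
    rw [pow_two, Matrix.trace]
    simp only [Matrix.diag_apply, hA2]
    have : ∑ x : V, (if x = c then (if x = c then N else 0) else (if x = c then 0 else 1))
        = ∑ x : V, ((if x = c then N else 0) + (if x = c then (0:ℝ) else 1)) := by
      refine sum_congr rfl fun z _ => ?_
      split_ifs <;> simp
    rw [this, sum_add_distrib, hsumN]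
    simp; ring
  have h4 : (A ^ 4).trace = 2 * N ^ 2 := by
    have : A ^ 4 = (A * A) * (A * A) := by
      noncomm_ring
    rw [this, Matrix.trace]
    simp only [Matrix.diag_apply]
    have hd : ∀ x, ((A * A) * (A * A)) x x = if x = c then N ^ 2 else N := by
      intro x
      rw [Matrix.mul_apply]
      simp_rw [hA2]
      by_cases hx : x = c
      · simp only [hx, if_true]
        rw [sum_eq_single c]
        · simp; ring
        · intro b _ hb; simp [hb]
        · simp
      · simp only [hx, if_false]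
        rw [← hsumN]
        refine sum_congr rfl fun z _ => ?_
        split_ifs <;> simp
    simp_rw [hd]
    have : ∑ x : V, (if x = c then N ^ 2 else N)
        = ∑ x : V, ((if x = c then N ^ 2 else 0) + N * (if x = c then (0:ℝ) else 1)) := by
      refine sum_congr rfl fun z _ => ?_
      split_ifs <;> simp
    rw [this, sum_add_distrib, ← mul_sum, hsumN]
    simp; ring
  constructor
  · rw [← h2, trace_pow_eq A (G.isHermitian_adjMatrix ℝ) 2]
    rfl
  · rw [← h4, trace_pow_eq A (G.isHermitian_adjMatrix ℝ) 4]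
    rfl

lemma star_ratio (hV : 2 ≤ Fintype.card V) :
    uNorm 4 (eigs G) / uNorm 2 (eigs G) = ((Fintype.card V : ℝ) / 2) ^ ((1:ℝ) / 4) := by
  obtain ⟨h2, h4⟩ := star_sq G c hG
  set K : ℝ := (Fintype.card V : ℝ) with hK
  have hK2 : (2:ℝ) ≤ K := by rw [hK]; exact_mod_cast hV
  have e2 : ∑ v, |eigs G v| ^ (2:ℝ) = 2 * (K - 1) := by
    rw [← h2]
    refine sum_congr rfl fun v _ => ?_
    rw [show (2:ℝ) = ((2:ℕ):ℝ) by norm_num, Real.rpow_natCast, sq_abs]
  have e4 : ∑ v, |eigs G v| ^ (4:ℝ) = 2 * (K - 1) ^ 2 := by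
    rw [← h4]
    refine sum_congr rfl fun v _ => ?_
    rw [show (4:ℝ) = ((4:ℕ):ℝ) by norm_num, Real.rpow_natCast, show (4:ℕ) = 2 * 2 by norm_num,
      pow_mul, sq_abs, pow_mul]
  unfold uNorm
  rw [e2, e4, ← hK]
  have hb : (0:ℝ) < 2 * (K - 1) / K := by
    apply div_pos <;> linarith
  have hid : 2 * (K - 1) ^ 2 / K = (K / 2) * (2 * (K - 1) / K) ^ (2:ℝ) := by
    rw [show (2:ℝ) = ((2:ℕ):ℝ) by norm_num, Real.rpow_natCast]
    push_cast
    field_simp
  rw [hid, Real.mul_rpow (by linarith) (by positivity), ← Real.rpow_mul hb.le]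
  rw [show (2:ℝ) * (1/4) = 1/2 by norm_num]
  rw [mul_div_assoc, div_self (Real.rpow_pos_of_pos hb _).ne', mul_one]

end star

/-! ### The codes -/

/-- the quantitative counterexample for a fixed `n` -/
lemma star_code (n d : ℕ) (hd0 : 0 < d) (L : Finset (Fin n → Bool)) (hL0 : L.Nonempty)
    (hL1 : ∀ x ∈ L, hammingDist x (fun _ => false) = d)
    (hL2 : ∀ x ∈ L, ∀ y ∈ L, x ≠ y → d < hammingDist x y) :
    ∃ C : Finset (Fin n → Bool), IsCode C d ∧ IsBalanced (distGraph C d) 1 ∧
      uNorm 4 (eigs (distGraph C d)) / uNorm 2 (eigs (distGraph C d))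
        = (((L.card : ℝ) + 1) / 2) ^ ((1:ℝ) / 4) := by
  classical
  set o : Fin n → Bool := fun _ => false with ho
  have hoL : o ∉ L := by
    intro h
    have := hL1 o h
    rw [hammingDist_self] at this
    omega
  refine ⟨insert o L, ?_, ?_⟩
  · intro x hx y hy hxy
    rw [mem_insert] at hx hy
    rcases hx with rfl | hx
    · rcases hy with rfl | hy
      · exact absurd rfl hxy
      · rw [hammingDist_comm, hL1 y hy]
    · rcases hy with rfl | hy
      · rw [hL1 x hx]
      · exact (hL2 x hx y hy hxy).le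
  · set C := insert o L with hC
    have hcardC : Fintype.card C = L.card + 1 := by
      rw [Fintype.card_coe, hC, card_insert_of_notMem hoL]
    have hVtwo : 2 ≤ Fintype.card C := by
      rw [hcardC]
      have := hL0.card_pos
      omega
    set c : C := ⟨o, mem_insert_self o L⟩ with hc
    have hmem : ∀ x : C, x ≠ c → x.1 ∈ L := by
      intro x hx
      have h1 : x.1 ∈ insert o L := x.2
      rw [mem_insert] at h1
      rcases h1 with h1 | h1
      · exact absurd (Subtype.ext h1) hx
      · exact h1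
    have hG : ∀ x y : C, (distGraph C d).Adj x y ↔ ((x = c ∧ y ≠ c) ∨ (x ≠ c ∧ y = c)) := by
      intro x y
      show (x ≠ y ∧ hammingDist x.1 y.1 = d) ↔ _
      constructor
      · rintro ⟨hxy, hd⟩
        by_cases hx : x = c
        · left; exact ⟨hx, fun hy => hxy (hx.trans hy.symm)⟩
        · by_cases hy : y = c
          · right; exact ⟨hx, hy⟩
          · have := hL2 x.1 (hmem x hx) y.1 (hmem y hy) (fun h => hxy (Subtype.ext h))
            omega
      · rintro (⟨rfl, hy⟩ | ⟨hx, rfl⟩)
        · refine ⟨fun h => hy h.symm, ?_⟩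
          rw [hammingDist_comm]
          exact hL1 y.1 (hmem y hy)
        · exact ⟨hx, hL1 x.1 (hmem x hx)⟩
    refine ⟨star_balanced _ c hG hVtwo, ?_⟩
    rw [star_ratio _ c hG hVtwo, hcardC]
    push_cast
    rfl

/-- for each `δ`, exponentially large counterexamples for all large `n` -/
lemma strong (δ : ℝ) (h0 : 0 < δ) (h1 : δ < 1 / 2) :
    ∃ a : ℝ, 0 < a ∧ ∃ n₀ : ℕ, ∀ n : ℕ, n₀ ≤ n → ∃ C : Finset (Fin n → Bool),
      IsCode C ⌊δ * n⌋₊ ∧ IsBalanced (distGraph C ⌊δ * n⌋₊) 1 ∧
      (2:ℝ) ^ (a * n) ≤ uNorm 4 (eigs (distGraph C ⌊δ * n⌋₊))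
        / uNorm 2 (eigs (distGraph C ⌊δ * n⌋₊)) := by
  set s : ℝ := 1 / (2 * δ) with hs
  have hs1 : 1 < s := by
    rw [hs, lt_div_iff₀ (by linarith)]; linarith
  set ρ : ℝ := 1 - (1 - 2 * δ) ^ 2 / 2 with hρ
  have hρ1 : ρ < 1 := by
    have : 0 < (1 - 2 * δ) ^ 2 := by
      apply pow_pos; linarith
    rw [hρ]; linarith
  have hρ0 : 0 < ρ := by
    have : (1 - 2 * δ) ^ 2 < 1 := by nlinarith
    rw [hρ]; linarith
  have hρs : ρ * s = 1 + δ * (s ^ 2 - 1) := by
    rw [hρ, hs]; field_simp; ring
  set b : ℝ := 1 / ρ with hb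
  have hb1 : 1 < b := by
    rw [hb, lt_div_iff₀ hρ0]; linarith
  have hb0 : 0 < b := by linarith
  set r : ℝ := b ^ (δ / 2) with hr
  have hr1 : 1 < r := Real.one_lt_rpow hb1 (by linarith)
  have hr0 : 0 < r := by linarith
  -- the exponent
  set a : ℝ := Real.logb 2 r / 4 with ha
  have ha0 : 0 < a := by
    have := Real.logb_pos (b := 2) (by norm_num) hr1
    positivity
  refine ⟨a, ha0, ?_⟩
  -- growth
  have hev : ∀ᶠ n : ℕ in atTop, (n:ℝ) ^ 1 / r ^ n < 1 / (4 * b) := by
    have := tendsto_pow_const_div_const_pow_of_one_lt 1 hr1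
    exact this.eventually_lt_const (by positivity)
  have hev2 : ∀ᶠ n : ℕ in atTop, 1 / δ < (n:ℝ) :=
    tendsto_natCast_atTop_atTop.eventually_gt_atTop (1 / δ)
  obtain ⟨n₀, hn₀⟩ := eventually_atTop.1 ((hev.and hev2).and (eventually_ge_atTop 1))
  refine ⟨n₀, fun n hn => ?_⟩
  obtain ⟨⟨hn1, hn2⟩, hn3⟩ := hn₀ n hn
  have hnpos : (0:ℝ) < n := by exact_mod_cast (by omega : 0 < n)
  set d : ℕ := ⌊δ * n⌋₊ with hd
  have hδn : 1 < δ * n := by
    rw [div_lt_iff₀ h0] at hn2; linarith
  have hd0 : 0 < d := by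
    rw [hd]; exact Nat.floor_pos.2 hδn.le
  have hdle : (d:ℝ) ≤ δ * n := Nat.floor_le (by positivity)
  have hdge : δ * n - 1 < d := Nat.sub_one_lt_floor _
  have hdn : d < n := by
    have : (d:ℝ) < n := by nlinarith
    exact_mod_cast this
  obtain ⟨L, hL1, hL2, hL3⟩ := gilbert n d hd0 hdn s hs1.le
  have hndR : (0:ℝ) < (n:ℝ) - d := by
    have : (d:ℝ) < n := by exact_mod_cast hdn
    linarith
  have hbase : s ^ 2 * d + (n - d) ≤ ρ * (s * n) := by
    have h2 : 0 ≤ s ^ 2 - 1 := by nlinarith
    calc s ^ 2 * d + (n - d) = n + d * (s ^ 2 - 1) := by ring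
      _ ≤ n + (δ * n) * (s ^ 2 - 1) := by
          have := mul_le_mul_of_nonneg_right hdle h2
          linarith
      _ = (ρ * s) * n := by rw [hρs]; ring
      _ = ρ * (s * n) := by ring
  have hsn : (0:ℝ) < s * n := by positivity
  have hcard : b ^ d ≤ (n + 1) * L.card := by
    have hpos : (0:ℝ) ≤ s ^ 2 * d + (n - d) := by positivity
    have h3 : (s * n) ^ d ≤ ((n + 1) * L.card) * (ρ ^ d * (s * n) ^ d) := by
      refine hL3.trans ?_
      rw [← mul_pow]
      exact mul_le_mul_of_nonneg_left (pow_le_pow_left₀ hpos hbase d) (by positivity)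
    have h4 : (1:ℝ) ≤ ((n + 1) * L.card) * ρ ^ d := by
      have h5 : (1:ℝ) * (s * n) ^ d ≤ (((n + 1) * L.card) * ρ ^ d) * (s * n) ^ d := by
        rw [one_mul, mul_assoc]; exact h3
      exact le_of_mul_le_mul_right h5 (by positivity)
    rw [hb, one_div, inv_pow, inv_le_iff_one_le_mul₀ (by positivity)]
    exact h4
  have hL0 : L.Nonempty := by
    rw [nonempty_iff_ne_empty]
    rintro rfl
    have : (0:ℝ) < b ^ d := by positivity
    simp at hcard
    linarith
  obtain ⟨C, hC1, hC2, hC3⟩ := star_code n d hd0 L hL0 hL1 hL2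
  refine ⟨C, hC1, hC2, ?_⟩
  rw [hC3]
  -- numeric comparison
  have hrn : r ^ n = b ^ (δ * n / 2) := by
    rw [hr, ← Real.rpow_natCast, ← Real.rpow_mul hb0.le]
    congr 1; ring
  have hbd : r ^ n * r ^ n ≤ b * b ^ d := by
    rw [hrn, ← Real.rpow_add hb0, ← Real.rpow_natCast b d, ← Real.rpow_one_add' hb0.le (by positivity)]
    apply Real.rpow_le_rpow_of_exponent_le hb1.le
    linarith
  have hrn0 : 0 < r ^ n := by positivity
  have hgrow : 4 * b * n < r ^ n := by
    rw [pow_one, div_lt_div_iff₀ hrn0 (by positivity)] at hn1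
    linarith
  have hn1' : (1:ℝ) ≤ n := by exact_mod_cast hn3
  have hkey : r ^ n ≤ ((L.card : ℝ) + 1) / 2 := by
    have h5 : r ^ n * r ^ n ≤ b * ((n + 1) * L.card) :=
      hbd.trans (mul_le_mul_of_nonneg_left hcard hb0.le)
    have h6 : b * ((n + 1) * L.card) ≤ (2 * b * n) * L.card := by
      have h6' : (n:ℝ) + 1 ≤ 2 * n := by linarith
      have h7 : (0:ℝ) ≤ b * L.card := by positivity
      calc b * ((n + 1) * L.card) = (b * L.card) * (n + 1) := by ring
        _ ≤ (b * L.card) * (2 * n) := mul_le_mul_of_nonneg_left h6' h7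
        _ = (2 * b * n) * L.card := by ring
    have h8 : (2 * b * n) * L.card ≤ (r ^ n / 2) * L.card := by
      have h8' : 2 * b * n ≤ r ^ n / 2 := by linarith
      exact mul_le_mul_of_nonneg_right h8' (by positivity)
    have h9 : r ^ n * r ^ n ≤ r ^ n * ((L.card : ℝ) / 2) := by
      calc r ^ n * r ^ n ≤ (r ^ n / 2) * L.card := h5.trans (h6.trans h8)
        _ = r ^ n * ((L.card : ℝ) / 2) := by ring
    have h10 : r ^ n ≤ (L.card : ℝ) / 2 := le_of_mul_le_mul_left h9 hrn0
    linarith
  calc (2:ℝ) ^ (a * n) = (r ^ n) ^ ((1:ℝ) / 4) := by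
        have h2r : (2:ℝ) ^ (Real.logb 2 r) = r := Real.rpow_logb (by norm_num) (by norm_num) hr0
        rw [ha, ← Real.rpow_natCast r n, ← Real.rpow_mul hr0.le]
        conv_rhs => rw [← h2r]
        rw [← Real.rpow_mul (by norm_num)]
        congr 1; ring
    _ ≤ (((L.card : ℝ) + 1) / 2) ^ ((1:ℝ) / 4) :=
        Real.rpow_le_rpow hrn0.le hkey (by norm_num)

/-- **Main theorem.**  The conjectured inequality (Q1) is false.  More precisely, for *every*
`0 < δ < 1/2` there is `a > 0` such that for all large `n` some code `C ⊆ {0,1}^n` with minimal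
distance `d = ⌊δ n⌋` has a `1`-balanced distance-`d` graph with `‖λ‖₄ / ‖λ‖₂ ≥ 2 ^ (a n)`. -/
theorem result :
    ¬ Conj cstar ∧
    ∀ δ : ℝ, 0 < δ → δ < 1 / 2 → ∃ a : ℝ, 0 < a ∧ ∃ n₀ : ℕ, ∀ n : ℕ, n₀ ≤ n →
      ∃ C : Finset (Fin n → Bool), IsCode C ⌊δ * n⌋₊ ∧ IsBalanced (distGraph C ⌊δ * n⌋₊) 1 ∧
        (2:ℝ) ^ (a * n) ≤ uNorm 4 (eigs (distGraph C ⌊δ * n⌋₊))
          / uNorm 2 (eigs (distGraph C ⌊δ * n⌋₊)) := by
  refine ⟨?_, strong⟩
  intro hconj
  obtain ⟨ε₀, hε₀, hc⟩ := hconj (1/4) (by norm_num) (by norm_num)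
  obtain ⟨g, hg, hbound⟩ := hc 0 le_rfl hε₀.le (fun _ => 1) (fun _ => le_rfl) (by
    simp only [Real.logb_one]
    exact isLittleO_zero _ _)
  obtain ⟨a, ha, n₀, hn₀⟩ := strong (1/4) (by norm_num) (by norm_num)
  have hev := (isLittleO_iff.1 hg) (half_pos ha)
  obtain ⟨n₁, hn₁⟩ := eventually_atTop.1 (hev.and (eventually_ge_atTop 1))
  obtain ⟨n, hnn₀, hnn₁⟩ : ∃ n : ℕ, n₀ ≤ n ∧ n₁ ≤ n :=
    ⟨max n₀ n₁, le_max_left _ _, le_max_right _ _⟩
  obtain ⟨hgn, hn1⟩ := hn₁ n hnn₁
  obtain ⟨C, hC1, hC2, hC3⟩ := hn₀ n hnn₀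
  have hb := hbound n C _ hC1 le_rfl (by simp) hC2
  have hlt := hC3.trans hb
  rw [Real.rpow_le_rpow_left_iff (by norm_num)] at hlt
  have hnpos : (0:ℝ) < n := by exact_mod_cast (by omega : 0 < n)
  have h1 : g n ≤ a / 2 * n := by
    have := (le_abs_self (g n)).trans (by simpa [Real.norm_eq_abs] using hgn)
    exact this
  nlinarith

end Pool.Agent.Results.MP_5eddec_co.StarDisproof
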